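import Mathlib
import Pool.Agent.Lib.P0fb.FinA
import Pool.Agent.Lib.P0fb.FinB

/-!
# The giant shadow in the Linial-Meshulam process emerges within `O(log n)` steps
-/

namespace Pool.Agent.Results.MP_0fbfc9_pr.LogWindow

open Finset Filter Pool.Agent.Lib.P0fb

theorem sh_eq {F : Type} [Field F] {n d m : ℕ}
    {bd' : (n : ℕ) → Finset (Fin n) → (Finset (Fin n) → F)}
    (hbd : ∀ (n : ℕ) (σ : Finset (Fin n)), bd' n σ =
      ∑ v ∈ σ, ((-1 : F) ^ (σ.filter (fun u => u < v)).card) •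
        (Pi.single (σ.erase v) (1 : F) : Finset (Fin n) → F))
    {sh : (n : ℕ) → Set (Finset (Fin n)) → ℕ}
    (hsh : ∀ (n : ℕ) (S : Set (Finset (Fin n))), sh n S =
      Set.ncard {σ : Finset (Fin n) | σ.card = d + 1 ∧ σ ∉ S ∧
        bd' n σ ∈ Submodule.span F (bd' n '' S)})
    (e : Fin (n.choose (d + 1)) ≃ Fc n d) :
    sh n {τ | ∃ i : Fin (n.choose (d + 1)), i.val < m ∧ (e i).val = τ} =
      (clF F n d (Y e m) \ Y e m).card := by
  classical
  have hb : bd' n = bd F n := by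
    funext σ
    rw [hbd, bd]
  have hS : {τ : Finset (Fin n) | ∃ i : Fin (n.choose (d + 1)), i.val < m ∧ (e i).val = τ} =
      Subtype.val '' (Y e m : Set (Fc n d)) := by
    ext τ
    constructor
    · rintro ⟨i, hi, rfl⟩
      exact ⟨e i, by simpa [Y] using hi, rfl⟩
    · rintro ⟨x, hx, rfl⟩
      have hx' : x ∈ Y e m := hx
      rw [Y, Finset.mem_image] at hx'
      obtain ⟨i, hi, rfl⟩ := hx'
      exact ⟨i, by simpa using hi, rfl⟩
  rw [hsh, hb, hS]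
  have h1 : {σ : Finset (Fin n) | σ.card = d + 1 ∧ σ ∉ Subtype.val '' (Y e m : Set (Fc n d)) ∧
      bd F n σ ∈ Submodule.span F (bd F n '' (Subtype.val '' (Y e m : Set (Fc n d))))} =
      Subtype.val '' ((clF F n d (Y e m) \ Y e m : Finset (Fc n d)) : Set (Fc n d)) := by
    ext σ
    constructor
    · rintro ⟨h1, h2, h3⟩
      refine ⟨⟨σ, h1⟩, ?_, rfl⟩
      rw [Finset.mem_coe, Finset.mem_sdiff]
      refine ⟨?_, fun h => h2 ⟨_, h, rfl⟩⟩
      rw [clF, Finset.mem_filter]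
      refine ⟨Finset.mem_univ _, ?_⟩
      rw [Set.image_image] at h3
      exact h3
    · rintro ⟨x, hx, rfl⟩
      rw [Finset.mem_coe, Finset.mem_sdiff, clF, Finset.mem_filter] at hx
      refine ⟨x.2, ?_, ?_⟩
      · rintro ⟨y, hy, hyx⟩
        exact hx.2 (by rwa [← Subtype.ext hyx])
      · rw [Set.image_image]
        exact hx.1.2
  rw [h1, Set.ncard_image_of_injective _ Subtype.val_injective, Set.ncard_coe_finset]

theorem result : ∀ d : ℕ, 2 ≤ d → ∃ C δ K c : ℝ, 0 < C ∧ 0 < δ ∧ 0 < K ∧ 0 < c ∧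
    ∀ (F : Type) [Field F],
    ∀ bd : (n : ℕ) → Finset (Fin n) → (Finset (Fin n) → F),
    (∀ (n : ℕ) (σ : Finset (Fin n)), bd n σ =
      ∑ v ∈ σ, ((-1 : F) ^ (σ.filter (fun u => u < v)).card) •
        (Pi.single (σ.erase v) (1 : F) : Finset (Fin n) → F)) →
    ∀ sh : (n : ℕ) → Set (Finset (Fin n)) → ℕ,
    (∀ (n : ℕ) (S : Set (Finset (Fin n))), sh n S =
      Set.ncard {σ : Finset (Fin n) | σ.card = d + 1 ∧ σ ∉ S ∧
        bd n σ ∈ Submodule.span F (bd n '' S)}) →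
    Tendsto (fun n : ℕ =>
      (Nat.card {e : Fin (n.choose (d + 1)) ≃ {σ : Finset (Fin n) // σ.card = d + 1} //
        ∃ m : ℕ, m + ⌊C * Real.log n⌋₊ ≤ n.choose (d + 1) ∧
          ((sh n {τ | ∃ i : Fin (n.choose (d + 1)), i.val < m ∧ (e i).val = τ} : ℕ) : ℝ)
              ≤ C * (n : ℝ) ∧
          δ * (n : ℝ) ^ (d + 1) ≤
            ((sh n {τ | ∃ i : Fin (n.choose (d + 1)), i.val < m + ⌊C * Real.log n⌋₊ ∧
              (e i).val = τ} : ℕ) : ℝ)} : ℝ) /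
      (Nat.card (Fin (n.choose (d + 1)) ≃ {σ : Finset (Fin n) // σ.card = d + 1}) : ℝ))
      atTop (nhds 1) ∧
    ∀ κ : ℝ, 0 < κ → ∀ᶠ n : ℕ in atTop,
      1 - K * Real.exp (-c / κ) ≤
      (Nat.card {e : Fin (n.choose (d + 1)) ≃ {σ : Finset (Fin n) // σ.card = d + 1} //
        ∃ m : ℕ, m < n.choose (d + 1) ∧
          ((sh n {τ | ∃ i : Fin (n.choose (d + 1)), i.val < m ∧ (e i).val = τ} : ℕ) : ℝ)
              + κ * (n : ℝ) ^ (d + 1) ≤
            ((sh n {τ | ∃ i : Fin (n.choose (d + 1)), i.val < m + 1 ∧ (e i).val = τ} : ℕ) : ℝ)} : ℝ) /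
      (Nat.card (Fin (n.choose (d + 1)) ≃ {σ : Finset (Fin n) // σ.card = d + 1}) : ℝ) := by
  intro d hd
  obtain ⟨C, δ, hC, hδ, hA⟩ := finalA d hd
  obtain ⟨K, c, hK, hc, hB⟩ := finalB d hd
  refine ⟨C, δ, K, c, hC, hδ, hK, hc, ?_⟩
  intro F _ bd hbd sh hsh
  constructor
  · refine (hA F).congr (fun n => ?_)
    rw [PP_eq_card]
    simp only [sh_eq hbd hsh]
  · intro κ hκ
    filter_upwards [hB F κ hκ] with n hn
    refine hn.trans (le_of_eq ?_)
    rw [PP_eq_card]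
    simp only [sh_eq hbd hsh]

end Pool.Agent.Results.MP_0fbfc9_pr.LogWindow
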