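import Pool.Agent.Lib.P0fc.FinalC

set_option autoImplicit false

namespace Pool.Agent.Results.MP_0fbfc9_pr.OneStep

/-- The `d`-dimensional faces of the full simplex on `n` vertices. -/
abbrev Face (n d : ℕ) : Type := {σ : Finset (Fin n) // σ.card = d + 1}

/-- The incidence number of the simplices `σ` and `τ`: if `σ = {v_0 < ... < v_d}` and `τ` is `σ`
without `v_i`, it is `(-1)^i`; otherwise it is `0`. -/
def incidence {n : ℕ} (σ τ : Finset (Fin n)) : ℝ :=
  ∑ v ∈ σ, if σ.erase v = τ then (-1 : ℝ) ^ (σ.filter (fun u => u < v)).card else 0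

/-- The space of the `d`-cycles of the complex whose `d`-faces are the members of `S`: the real
`d`-chains supported on `S` whose boundary is zero. -/
def cycles {n d : ℕ} (S : Set (Face n d)) : Submodule ℝ (Face n d → ℝ) where
  carrier := {z | (∀ σ, σ ∉ S → z σ = 0) ∧
    ∀ τ : Finset (Fin n), ∑ σ : Face n d, z σ * incidence σ.val τ = 0}
  zero_mem' := ⟨fun _ _ => rfl, fun τ => by simp⟩
  add_mem' := by
    rintro z w ⟨h1, h2⟩ ⟨h3, h4⟩
    refine ⟨fun σ hσ => by rw [Pi.add_apply, h1 σ hσ, h3 σ hσ, add_zero], fun τ => ?_⟩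
    simp only [Pi.add_apply, add_mul, Finset.sum_add_distrib, h2 τ, h4 τ, add_zero]
  smul_mem' := by
    rintro a z ⟨h1, h2⟩
    refine ⟨fun σ hσ => by rw [Pi.smul_apply, h1 σ hσ, smul_zero], fun τ => ?_⟩
    simp only [Pi.smul_apply, smul_eq_mul, mul_assoc, ← Finset.mul_sum, h2 τ, mul_zero]

/-- The `d`-th real Betti number of the complex whose `d`-faces are the members of `S` (the complex
has no faces of dimension `d + 1`, so its `d`-th homology is its space of `d`-cycles). -/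
noncomputable def betti {n d : ℕ} (S : Set (Face n d)) : ℕ := Module.finrank ℝ (cycles S)

/-- The real shadow: the `d`-faces outside the complex whose addition raises the Betti number. -/
def shadow {n d : ℕ} (S : Set (Face n d)) : Set (Face n d) :=
  {σ | σ ∉ S ∧ betti S < betti (insert σ S)}

/-- The orders in which the `d`-faces can be added. -/
abbrev Order (n d : ℕ) : Type := Fin (n.choose (d + 1)) ≃ Face n d

/-- The faces of the Linial-Meshulam process after `m` steps: the first `m` faces of the order. -/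
def process {n d : ℕ} (e : Order n d) (m : ℕ) : Set (Face n d) :=
  {σ | ∃ i : Fin (n.choose (d + 1)), i.val < m ∧ e i = σ}

/-- The probability of a set of orders when the order is uniformly random. -/
noncomputable def prob {n d : ℕ} (A : Set (Order n d)) : ℝ :=
  (Nat.card A : ℝ) / (Nat.card (Order n d) : ℝ)

theorem bd_apply {n : ℕ} (σ τ : Finset (Fin n)) :
    Pool.Agent.Lib.P0fb.bd ℝ n σ τ = incidence σ τ := by
  unfold Pool.Agent.Lib.P0fb.bd incidence
  rw [Finset.sum_apply]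
  refine Finset.sum_congr rfl fun v _ => ?_
  rw [Pi.smul_apply, Pi.single_apply, smul_eq_mul]
  by_cases h : σ.erase v = τ
  · rw [if_pos h, if_pos h.symm, mul_one]
  · rw [if_neg h, if_neg (fun h' => h h'.symm), mul_zero]

theorem cycles_mono {n d : ℕ} (S : Set (Face n d)) (σ : Face n d) :
    cycles S ≤ cycles (insert σ S) := by
  rintro z ⟨h1, h2⟩
  exact ⟨fun ρ hρ => h1 ρ (fun h => hρ (Set.mem_insert_of_mem _ h)), h2⟩

/-- The shadow in terms of boundaries. -/
theorem betti_lt_iff {n d : ℕ} (S : Set (Face n d)) (σ : Face n d) (hσ : σ ∉ S) :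
    betti S < betti (insert σ S) ↔ Pool.Agent.Lib.P0fb.bd ℝ n σ.val ∈
      Submodule.span ℝ ((fun y : Face n d => Pool.Agent.Lib.P0fb.bd ℝ n y.val) '' S) := by
  classical
  constructor
  · intro h
    have hne : ∃ z ∈ cycles (insert σ S), z ∉ cycles S := by
      by_contra hcon
      push Not at hcon
      have : cycles (insert σ S) ≤ cycles S := hcon
      exact absurd (Submodule.finrank_mono this) (not_le.mpr h)
    obtain ⟨z, ⟨h1, h2⟩, h3⟩ := hne
    have hzσ : z σ ≠ 0 := by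
      intro h0
      apply h3
      refine ⟨fun ρ hρ => ?_, h2⟩
      by_cases hρσ : ρ = σ
      · rw [hρσ, h0]
      · exact h1 ρ (fun h => (Set.mem_insert_iff.mp h).elim hρσ hρ)
    have h4 : ∑ ρ : Face n d, z ρ • Pool.Agent.Lib.P0fb.bd ℝ n ρ.val = 0 := by
      funext τ
      rw [Finset.sum_apply]
      simp only [Pi.smul_apply, bd_apply, smul_eq_mul, Pi.zero_apply]
      exact h2 τ
    rw [← Finset.add_sum_erase _ _ (Finset.mem_univ σ)] at h4
    have h5 : z σ • Pool.Agent.Lib.P0fb.bd ℝ n σ.val ∈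
        Submodule.span ℝ ((fun y : Face n d => Pool.Agent.Lib.P0fb.bd ℝ n y.val) '' S) := by
      rw [eq_neg_of_add_eq_zero_left h4]
      refine Submodule.neg_mem _ (Submodule.sum_mem _ fun ρ hρ => ?_)
      by_cases hρS : ρ ∈ S
      · exact Submodule.smul_mem _ _ (Submodule.subset_span ⟨ρ, hρS, rfl⟩)
      · have : z ρ = 0 := h1 ρ (fun h => (Set.mem_insert_iff.mp h).elim
          (Finset.ne_of_mem_erase hρ) hρS)
        rw [this, zero_smul]
        exact Submodule.zero_mem _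
    have h6 := Submodule.smul_mem _ (z σ)⁻¹ h5
    rwa [smul_smul, inv_mul_cancel₀ hzσ, one_smul] at h6
  · intro h
    apply Submodule.finrank_lt_finrank_of_lt
    refine lt_of_le_of_ne (cycles_mono S σ) fun heq => ?_
    obtain ⟨l, hl, hl2⟩ := (Finsupp.mem_span_image_iff_linearCombination ℝ).mp h
    have hlS : ∀ ρ, ρ ∉ S → l ρ = 0 := fun ρ hρ => by
      by_contra h0
      exact hρ ((Finsupp.mem_supported ℝ l).mp hl (Finsupp.mem_support_iff.mpr h0))
    have hsum : ∑ ρ : Face n d, l ρ • Pool.Agent.Lib.P0fb.bd ℝ n ρ.val =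
        Pool.Agent.Lib.P0fb.bd ℝ n σ.val := by
      rw [← hl2, Finsupp.linearCombination_apply,
        Finsupp.sum_fintype l (fun i a => a • Pool.Agent.Lib.P0fb.bd ℝ n i.val)
          (fun _ => zero_smul _ _)]
    let z : Face n d → ℝ := fun ρ => l ρ - if ρ = σ then 1 else 0
    have hz : z ∈ cycles (insert σ S) := by
      refine ⟨fun ρ hρ => ?_, fun τ => ?_⟩
      · have h1 : ρ ≠ σ := fun h => hρ (h ▸ Set.mem_insert _ _)
        have h2 : ρ ∉ S := fun h => hρ (Set.mem_insert_of_mem _ h)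
        simp only [z, hlS ρ h2, if_neg h1, sub_zero]
      · have h1 := congrFun hsum τ
        rw [Finset.sum_apply] at h1
        simp only [Pi.smul_apply, bd_apply, smul_eq_mul] at h1
        simp only [z, sub_mul, Finset.sum_sub_distrib, h1, ite_mul, one_mul, zero_mul,
          Finset.sum_ite_eq', Finset.mem_univ, if_true, sub_self]
    rw [← heq] at hz
    have h1 := hz.1 σ hσ
    simp only [z, hlS σ hσ, if_true] at h1
    norm_num at h1

theorem process_eq {n d : ℕ} (e : Order n d) (m : ℕ) :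
    process e m = (Pool.Agent.Lib.P0fb.Y e m : Set (Face n d)) := by
  ext σ
  simp only [process, Pool.Agent.Lib.P0fb.Y, Set.mem_ofPred_eq, Finset.coe_image, Set.mem_image,
    Finset.coe_filter, Finset.mem_univ, true_and]

theorem shadow_eq {n d : ℕ} (e : Order n d) (m : ℕ) :
    (shadow (process e m)).ncard = (Pool.Agent.Lib.P0fb.clF ℝ n d (Pool.Agent.Lib.P0fb.Y e m) \
      Pool.Agent.Lib.P0fb.Y e m).card := by
  classical
  rw [← Set.ncard_coe_finset]
  congr 1
  ext σ
  simp only [shadow, Set.mem_ofPred_eq, Finset.coe_sdiff, Set.mem_sdiff, Finset.mem_coe]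
  rw [process_eq]
  constructor
  · rintro ⟨h1, h2⟩
    refine ⟨?_, fun h => h1 (Finset.mem_coe.mpr h)⟩
    rw [Pool.Agent.Lib.P0fb.clF, Finset.mem_filter]
    exact ⟨Finset.mem_univ _, (betti_lt_iff _ σ h1).mp h2⟩
  · rintro ⟨h1, h2⟩
    rw [Pool.Agent.Lib.P0fb.clF, Finset.mem_filter] at h1
    have h3 : σ ∉ (Pool.Agent.Lib.P0fb.Y e m : Set (Face n d)) :=
      fun h => h2 (Finset.mem_coe.mp h)
    exact ⟨h3, (betti_lt_iff _ σ h3).mpr h1.2⟩

/-- One-step emergence of the giant shadow. -/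
theorem result (d : ℕ) (hd : 2 ≤ d) : ∃ C δ : ℝ, 0 < C ∧ 0 < δ ∧
    Filter.Tendsto (fun n : ℕ => prob {e : Order n d | ∃ m₀ : ℕ, 1 ≤ m₀ ∧
      m₀ ≤ n.choose (d + 1) ∧ ((shadow (process e (m₀ - 1))).ncard : ℝ) ≤ C * n ∧
      δ * (n : ℝ) ^ (d + 1) ≤ ((shadow (process e m₀)).ncard : ℝ)}) Filter.atTop (nhds 1) := by
  obtain ⟨C, c, hC, hc, h⟩ := Pool.Agent.Lib.P0fc.final_c d hd
  refine ⟨C, c, hC, hc, ?_⟩
  refine h.congr (fun n => ?_)
  rw [Pool.Agent.Lib.P0fb.PP_eq_card]
  have h1 : ∀ e : Order n d, (∃ m < n.choose (d + 1),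
      ((Pool.Agent.Lib.P0fb.clF ℝ n d (Pool.Agent.Lib.P0fb.Y e m) \
        Pool.Agent.Lib.P0fb.Y e m).card : ℝ) ≤ C * n ∧
      c * (n : ℝ) ^ (d + 1) ≤ ((Pool.Agent.Lib.P0fb.clF ℝ n d (Pool.Agent.Lib.P0fb.Y e (m + 1)) \
        Pool.Agent.Lib.P0fb.Y e (m + 1)).card : ℝ)) ↔ ∃ m₀ : ℕ, 1 ≤ m₀ ∧
      m₀ ≤ n.choose (d + 1) ∧ ((shadow (process e (m₀ - 1))).ncard : ℝ) ≤ C * n ∧
      c * (n : ℝ) ^ (d + 1) ≤ ((shadow (process e m₀)).ncard : ℝ) := by
    intro e
    constructor
    · rintro ⟨m, hm, h2, h3⟩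
      refine ⟨m + 1, by omega, by omega, ?_, ?_⟩
      · rw [Nat.add_sub_cancel, shadow_eq]; exact h2
      · rw [shadow_eq]; exact h3
    · rintro ⟨m₀, h1, h2, h3, h4⟩
      obtain ⟨m, rfl⟩ : ∃ m, m₀ = m + 1 := ⟨m₀ - 1, by omega⟩
      rw [Nat.add_sub_cancel, shadow_eq] at h3
      rw [shadow_eq] at h4
      exact ⟨m, by omega, h3, h4⟩
  unfold prob
  congr 2
  exact Nat.card_congr (Equiv.subtypeEquivRight fun e => h1 e)

end Pool.Agent.Results.MP_0fbfc9_pr.OneStep
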